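import Pool.Agent.Helper25.GT.Hedge

/-!
# Project TH (MP_766b49_co): the constant 3, the process

`N t` is the set of the earlier neighbours of `t`. The probability of `t` is `p M_t H_t`, where `M_t` is
the product of `0` or `1 / (1 - x_v)` over the earlier neighbours `v`, and `H_t` is the discrete
Azema-Yor process `(2 m - A) / m ^ 2` of the mean `A` of the martingales of the earlier neighbours of
`t`, `m` the running maximum of `A`.
-/

set_option autoImplicit false

namespace Pool.Agent.Helper3.TH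

open Finset Pool.Agent.Helper25.GT

/-- the mean of the martingales of the earlier neighbours (padded by ones) -/
noncomputable def aa (N : ℕ → Finset ℕ) (d : ℕ) (y : ℕ → ℝ) (J : Finset ℕ) (u s : ℕ) : ℝ :=
  (ss N y J u s + ((d : ℝ) - (N u).card)) / d

/-- its running maximum -/
noncomputable def mx (N : ℕ → Finset ℕ) (d : ℕ) (y : ℕ → ℝ) (J : Finset ℕ) (u : ℕ) : ℕ → ℝ
  | 0 => 1
  | s + 1 => max (mx N d y J u s) (aa N d y J u (s + 1))

/-- a hedge with the slopes `b m h` -/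
noncomputable def hg (b : ℝ → ℝ → ℝ) (h0 : ℝ) (N : ℕ → Finset ℕ) (d : ℕ) (y : ℕ → ℝ)
    (J : Finset ℕ) (u : ℕ) : ℕ → ℝ
  | 0 => h0
  | s + 1 => hg b h0 N d y J u s - b (mx N d y J u s) (hg b h0 N d y J u s) *
      (aa N d y J u (s + 1) - aa N d y J u s)

/-- slopes of `H` -/
noncomputable def bH (lo : ℝ) (m h : ℝ) : ℝ := if h < lo then 0 else 1 / m ^ 2

/-- slopes of `P` -/
noncomputable def bP (m _h : ℝ) : ℝ := 2 / (3 * m ^ 3)

/-- the probability of `t` -/
noncomputable def vl (N : ℕ → Finset ℕ) (d : ℕ) (p κ lo : ℝ) (y : ℕ → ℝ) (J : Finset ℕ)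
    (t : ℕ) : ℝ :=
  if lo ≤ hg (bH lo) 1 N d y J t t ∧ p * mm y (N t) J t * hg (bH lo) 1 N d y J t t ≤ κ then
    p * mm y (N t) J t * hg (bH lo) 1 N d y J t t
  else 0

/-- the process -/
noncomputable def xt (N : ℕ → Finset ℕ) (d : ℕ) (p κ lo : ℝ) : ℕ → Finset ℕ → ℝ
  | t, J => vl N d p κ lo (fun v => if _h : v < t then xt N d p κ lo v J else 0) J t
  termination_by t => t

section congr

variable (N : ℕ → Finset ℕ) (d : ℕ) (p κ lo : ℝ) (b : ℝ → ℝ → ℝ) (h0 : ℝ)

theorem aa_congr (y y' : ℕ → ℝ) (J J' : Finset ℕ) (u s : ℕ) (hy : ∀ v < s, y v = y' v)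
    (hJ : ∀ v < s, (v ∈ J ↔ v ∈ J')) : aa N d y J u s = aa N d y' J' u s := by
  unfold aa
  rw [ss_congr N y y' J J' u s hy hJ]

theorem mx_congr (y y' : ℕ → ℝ) (J J' : Finset ℕ) (u s : ℕ) (hy : ∀ v < s, y v = y' v)
    (hJ : ∀ v < s, (v ∈ J ↔ v ∈ J')) : mx N d y J u s = mx N d y' J' u s := by
  induction s with
  | zero => rfl
  | succ s ih =>
    rw [mx, mx, ih (fun v hv => hy v (Nat.lt_succ_of_lt hv)) (fun v hv => hJ v (Nat.lt_succ_of_lt hv)),
      aa_congr N d y y' J J' u (s + 1) hy hJ]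

theorem hg_congr (y y' : ℕ → ℝ) (J J' : Finset ℕ) (u s : ℕ) (hy : ∀ v < s, y v = y' v)
    (hJ : ∀ v < s, (v ∈ J ↔ v ∈ J')) : hg b h0 N d y J u s = hg b h0 N d y' J' u s := by
  induction s with
  | zero => rfl
  | succ s ih =>
    have hy' : ∀ v < s, y v = y' v := fun v hv => hy v (Nat.lt_succ_of_lt hv)
    have hJ' : ∀ v < s, (v ∈ J ↔ v ∈ J') := fun v hv => hJ v (Nat.lt_succ_of_lt hv)
    rw [hg, hg, ih hy' hJ', mx_congr N d y y' J J' u s hy' hJ',
      aa_congr N d y y' J J' u (s + 1) hy hJ, aa_congr N d y y' J J' u s hy' hJ']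

theorem vl_congr (y y' : ℕ → ℝ) (J J' : Finset ℕ) (t : ℕ) (hy : ∀ v < t, y v = y' v)
    (hJ : ∀ v < t, (v ∈ J ↔ v ∈ J')) : vl N d p κ lo y J t = vl N d p κ lo y' J' t := by
  unfold vl
  rw [hg_congr N d (bH lo) 1 y y' J J' t t hy hJ, mm_congr y y' (N t) J J' t hy hJ]

theorem xt_eq (t : ℕ) (J : Finset ℕ) :
    xt N d p κ lo t J = vl N d p κ lo (fun v => xt N d p κ lo v J) J t := by
  rw [xt]
  refine vl_congr N d p κ lo _ _ _ _ t (fun v hv => ?_) fun v _ => Iff.rfl
  rw [dif_pos hv]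

theorem xt_loc (t : ℕ) (J J' : Finset ℕ) (h : ∀ v < t, (v ∈ J ↔ v ∈ J')) :
    xt N d p κ lo t J = xt N d p κ lo t J' := by
  induction t using Nat.strong_induction_on with
  | _ t ih =>
    rw [xt_eq, xt_eq]
    exact vl_congr N d p κ lo _ _ _ _ t (fun v hv => ih v hv fun w hw => h w (hw.trans hv)) h

end congr

section path

variable {N : ℕ → Finset ℕ} {d : ℕ} {κ K lo : ℝ} {y : ℕ → ℝ} {J : Finset ℕ} {u : ℕ}

/-- the sum of the martingales grows by at most the factor `1 / (1 - κ)` in one step -/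
theorem ss_growth (hκ1 : κ < 1) (hκ : 0 ≤ κ) (s : ℕ)
    (hy : ∀ v < s + 1, y v ≤ κ) : ss N y J u (s + 1) ≤ (1 - κ)⁻¹ * ss N y J u s := by
  have hκ' : 0 < 1 - κ := by linarith
  have hmn : ∀ v, ∀ r ≤ s + 1, 0 ≤ mm y (N v) J r := fun v r hr =>
    mm_nonneg _ _ _ _ fun w hw => (hy w (lt_of_lt_of_le hw hr)).trans hκ1.le
  unfold ss
  rw [mul_sum]
  refine sum_le_sum fun v _ => ?_
  have hge1 : 1 ≤ (1 - κ)⁻¹ := (one_le_inv₀ hκ').2 (by linarith)
  rcases le_or_gt v s with hv | hv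
  · have e1 : min (s + 1) v = v := by omega
    have e2 : min s v = v := by omega
    rw [e1, e2]
    have := hmn v v (by omega)
    nlinarith
  · have e1 : min (s + 1) v = s + 1 := by omega
    have e2 : min s v = s := by omega
    rw [e1, e2, mm_succ]
    have h0 := hmn v s (by omega)
    have h1 : (if s ∈ N v then (if s ∈ J then 0 else (1 - y s)⁻¹) else 1) ≤ (1 - κ)⁻¹ := by
      have h2 := hy s (Nat.lt_succ_self s)
      split_ifs
      · exact (inv_pos.2 hκ').le
      · exact inv_anti₀ hκ' (by linarith)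
      · exact hge1
    rw [mul_comm]
    exact mul_le_mul_of_nonneg_right h1 h0

theorem aa_zero (hd : 1 ≤ d) : aa N d y J u 0 = 1 := by
  unfold aa ss
  rw [sum_congr rfl fun v _ => by rw [Nat.zero_min, mm_zero]]
  have : (d : ℝ) ≠ 0 := by positivity
  simp [this]

theorem aa_nonneg (hc : (N u).card ≤ d) (hκ1 : κ < 1) (s : ℕ) (hy : ∀ v < s, y v ≤ κ) :
    0 ≤ aa N d y J u s := by
  unfold aa
  have h1 : 0 ≤ ss N y J u s := sum_nonneg fun v _ => mm_nonneg _ _ _ _ fun w hw =>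
    (hy w (lt_of_lt_of_le hw (min_le_left _ _))).trans hκ1.le
  have h2 : ((N u).card : ℝ) ≤ d := by exact_mod_cast hc
  exact div_nonneg (by linarith) (Nat.cast_nonneg _)

theorem aa_growth (hc : (N u).card ≤ d) (hκ1 : κ < 1) (hκ : 0 ≤ κ) (hK : (1 - κ)⁻¹ = 1 + K)
    (s : ℕ) (hy : ∀ v < s + 1, y v ≤ κ) :
    aa N d y J u (s + 1) ≤ (1 + K) * aa N d y J u s := by
  have h1 := ss_growth (N := N) (J := J) (u := u) hκ1 hκ s hy
  have h2 : ((N u).card : ℝ) ≤ d := by exact_mod_cast hc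
  have hκ' : 0 < 1 - κ := by linarith
  have hge1 : 1 ≤ (1 - κ)⁻¹ := (one_le_inv₀ hκ').2 (by linarith)
  unfold aa
  rw [← mul_div_assoc]
  refine div_le_div_of_nonneg_right ?_ (Nat.cast_nonneg _)
  rw [hK] at h1 hge1
  nlinarith

theorem mx_one (s : ℕ) : 1 ≤ mx N d y J u s := by
  induction s with
  | zero => exact le_rfl
  | succ s ih => exact ih.trans (le_max_left _ _)

theorem aa_le_mx (hd : 1 ≤ d) (s : ℕ) : aa N d y J u s ≤ mx N d y J u s := by
  cases s with
  | zero => rw [aa_zero hd]; exact mx_one 0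
  | succ s => exact le_max_right _ _

/-- bounds of `H` -/
theorem H_bounds (hc : (N u).card ≤ d) (hd : 1 ≤ d) (hκ1 : κ < 1) (hκ : 0 ≤ κ)
    (hK : (1 - κ)⁻¹ = 1 + K) (hKlo : K ≤ lo) (s : ℕ) (hy : ∀ v < s, y v ≤ κ) :
    0 ≤ hg (bH lo) 1 N d y J u s ∧ (lo ≤ hg (bH lo) 1 N d y J u s →
      hg (bH lo) 1 N d y J u s ≤
        (2 * mx N d y J u s - aa N d y J u s) / mx N d y J u s ^ 2) := by
  induction s with
  | zero =>
    refine ⟨zero_le_one, fun _ => ?_⟩
    rw [aa_zero hd, hg, mx]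
    norm_num
  | succ s ih =>
    obtain ⟨i1, i2⟩ := ih fun v hv => hy v (Nat.lt_succ_of_lt hv)
    have hA0 : 0 ≤ aa N d y J u s := aa_nonneg hc hκ1 s fun v hv => hy v (Nat.lt_succ_of_lt hv)
    have hA1 : aa N d y J u (s + 1) ≤ (1 + K) * aa N d y J u s := aa_growth hc hκ1 hκ hK s hy
    have hAm : aa N d y J u s ≤ mx N d y J u s := aa_le_mx hd s
    have hm : 1 ≤ mx N d y J u s := mx_one s
    have hK0 : 0 ≤ K := by
      have : 1 ≤ (1 - κ)⁻¹ := (one_le_inv₀ (by linarith)).2 (by linarith)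
      linarith
    rw [hg, mx]
    set A := aa N d y J u s
    set A' := aa N d y J u (s + 1)
    set m := mx N d y J u s
    set h := hg (bH lo) 1 N d y J u s
    have hmpos : 0 < m := by linarith
    by_cases hst : h < lo
    · rw [bH, if_pos hst, zero_mul, sub_zero]
      exact ⟨i1, fun hh => absurd hst (not_lt.2 hh)⟩
    · rw [bH, if_neg hst]
      push Not at hst
      have i3 := i2 hst
      constructor
      · have e1 : 1 / m ^ 2 * (A' - A) ≤ K := by
          rw [one_div_mul_eq_div, div_le_iff₀ (by positivity)]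
          have : A' - A ≤ K * A := by linarith
          have h2 : K * A ≤ K * m := mul_le_mul_of_nonneg_left hAm hK0
          have h3 : K * m ≤ K * m ^ 2 := mul_le_mul_of_nonneg_left (by nlinarith) hK0
          linarith
        linarith
      · intro _
        have e2 : h - 1 / m ^ 2 * (A' - A) ≤ (2 * m - A') / m ^ 2 := by
          have : (2 * m - A') / m ^ 2 = (2 * m - A) / m ^ 2 - 1 / m ^ 2 * (A' - A) := by ring
          rw [this]
          linarith
        refine e2.trans ?_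
        rcases le_or_gt A' m with h1 | h1
        · rw [max_eq_left h1]
        · rw [max_eq_right h1.le]
          have hA'pos : 0 < A' := hmpos.trans h1
          rw [div_le_div_iff₀ (by positivity) (by positivity)]
          nlinarith [mul_nonneg hA'pos.le (sq_nonneg (A' - m))]

/-- bound of `P` -/
theorem P_bound (hc : (N u).card ≤ d) (hd : 1 ≤ d) (hκ1 : κ < 1) (hκ : 0 ≤ κ)
    (hK : (1 - κ)⁻¹ = 1 + K) (s : ℕ) (hy : ∀ v < s, y v ≤ κ) :
    (3 * mx N d y J u s - 2 * aa N d y J u s) / (3 * mx N d y J u s ^ 3) -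
      K * (1 - 1 / mx N d y J u s ^ 2) ≤ hg bP (1 / 3) N d y J u s := by
  induction s with
  | zero =>
    rw [aa_zero hd, hg, mx]
    norm_num
  | succ s ih =>
    have i1 := ih fun v hv => hy v (Nat.lt_succ_of_lt hv)
    have hA0 : 0 ≤ aa N d y J u s := aa_nonneg hc hκ1 s fun v hv => hy v (Nat.lt_succ_of_lt hv)
    have hA1 : aa N d y J u (s + 1) ≤ (1 + K) * aa N d y J u s := aa_growth hc hκ1 hκ hK s hy
    have hAm : aa N d y J u s ≤ mx N d y J u s := aa_le_mx hd s
    have hm : 1 ≤ mx N d y J u s := mx_one s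
    have hK0 : 0 ≤ K := by
      have : 1 ≤ (1 - κ)⁻¹ := (one_le_inv₀ (by linarith)).2 (by linarith)
      linarith
    rw [hg, mx]
    set A := aa N d y J u s
    set A' := aa N d y J u (s + 1)
    set m := mx N d y J u s
    set h := hg bP (1 / 3) N d y J u s
    have hmpos : 0 < m := by linarith
    rw [bP]
    have e2 : (3 * m - 2 * A') / (3 * m ^ 3) - K * (1 - 1 / m ^ 2) ≤
        h - 2 / (3 * m ^ 3) * (A' - A) := by
      have : (3 * m - 2 * A') / (3 * m ^ 3) =
        (3 * m - 2 * A) / (3 * m ^ 3) - 2 / (3 * m ^ 3) * (A' - A) := by ring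
      rw [this]
      linarith
    refine le_trans ?_ e2
    rcases le_or_gt A' m with h1 | h1
    · rw [max_eq_left h1]
    · rw [max_eq_right h1.le]
      have hA'pos : 0 < A' := hmpos.trans h1
      have hd1 : A' - m ≤ K * m := by
        have : (1 + K) * A ≤ (1 + K) * m := mul_le_mul_of_nonneg_left hAm (by linarith)
        linarith
      have e3 : (3 * m - 2 * A') / (3 * m ^ 3) - K * (1 - 1 / m ^ 2) -
          ((3 * A' - 2 * A') / (3 * A' ^ 3) - K * (1 - 1 / A' ^ 2)) =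
          (A' - m) * (3 * K * m * (A' + m) - (A' - m) * (2 * A' + m)) /
            (3 * m ^ 3 * A' ^ 2) := by
        field_simp
        ring
      have e4 : 0 ≤ (A' - m) * (3 * K * m * (A' + m) - (A' - m) * (2 * A' + m)) /
            (3 * m ^ 3 * A' ^ 2) := by
        apply div_nonneg _ (by positivity)
        apply mul_nonneg (by linarith)
        have h3 : (A' - m) * (2 * A' + m) ≤ (K * m) * (2 * A' + m) :=
          mul_le_mul_of_nonneg_right hd1 (by linarith)
        have h4 : 0 ≤ K * m := mul_nonneg hK0 hmpos.le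
        nlinarith
      linarith

/-- the inequality between `H` and `P` -/
theorem HP (hc : (N u).card ≤ d) (hd : 1 ≤ d) (hκ1 : κ < 1) (hκ : 0 ≤ κ)
    (hK : (1 - κ)⁻¹ = 1 + K) (hKlo : K ≤ lo) (s : ℕ) (hy : ∀ v < s, y v ≤ κ) :
    0 ≤ hg bP (1 / 3) N d y J u s + K ∧ (lo ≤ hg (bH lo) 1 N d y J u s →
      hg (bH lo) 1 N d y J u s ≤ 2 ∧
      hg (bH lo) 1 N d y J u s * aa N d y J u s ≤ 1 ∧
      hg (bH lo) 1 N d y J u s ^ 2 ≤ 4 * (hg bP (1 / 3) N d y J u s + K)) := by
  obtain ⟨b1, b2⟩ := H_bounds (J := J) hc hd hκ1 hκ hK hKlo s hy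
  have b3 := P_bound (J := J) hc hd hκ1 hκ hK s hy
  have hA0 : 0 ≤ aa N d y J u s := aa_nonneg hc hκ1 s hy
  have hAm : aa N d y J u s ≤ mx N d y J u s := aa_le_mx hd s
  have hm : 1 ≤ mx N d y J u s := mx_one s
  have hK0 : 0 ≤ K := by
    have : 1 ≤ (1 - κ)⁻¹ := (one_le_inv₀ (by linarith)).2 (by linarith)
    linarith
  set A := aa N d y J u s
  set m := mx N d y J u s
  set h := hg (bH lo) 1 N d y J u s
  set P := hg bP (1 / 3) N d y J u s
  have hmpos : 0 < m := by linarith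
  have c1 : (3 * m - 2 * A) / (3 * m ^ 3) ≤ P + K := by
    have : 0 ≤ K * (1 / m ^ 2) := mul_nonneg hK0 (by positivity)
    linarith
  refine ⟨le_trans (div_nonneg (by linarith) (by positivity)) c1, fun hlo => ?_⟩
  have c2 := b2 hlo
  refine ⟨c2.trans ?_, ?_, ?_⟩
  · rw [div_le_iff₀ (by positivity)]
    nlinarith
  · have : (2 * m - A) / m ^ 2 * A ≤ 1 := by
      rw [div_mul_eq_mul_div, div_le_iff₀ (by positivity)]
      nlinarith [sq_nonneg (m - A)]
    exact (mul_le_mul_of_nonneg_right c2 hA0).trans this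
  · have c3 : h ^ 2 ≤ ((2 * m - A) / m ^ 2) ^ 2 := pow_le_pow_left₀ b1 c2 2
    have c4 : ((2 * m - A) / m ^ 2) ^ 2 ≤ 4 * ((3 * m - 2 * A) / (3 * m ^ 3)) := by
      rw [div_pow, ← mul_div_assoc, div_le_div_iff₀ (by positivity) (by positivity)]
      have h5 : 0 ≤ A * (4 * m - 3 * A) := mul_nonneg hA0 (by linarith)
      have h6 : 0 ≤ m ^ 3 * (A * (4 * m - 3 * A)) := mul_nonneg (by positivity) h5
      nlinarith
    linarith

end path

end Pool.Agent.Helper3.TH
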