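import Pool.Agent.Helper18.FT.Main
import Pool.Agent.Helper3.TH.Final

/-!
# Few triangles, by sampling, with the constant 6
-/

set_option autoImplicit false

namespace Pool.Agent.Helper3.TH

open Finset
open scoped Classical

theorem large (ε : ℝ) (hε : 0 < ε) : ∃ f₀ : ℝ, 1 < f₀ ∧ ∀ (d : ℕ) (f : ℝ), 1 ≤ d → f₀ ≤ f →
    f ≤ (d : ℝ) ^ 2 + 1 → ∀ (V : Type) [Fintype V] (G : SimpleGraph V),
    (∀ S : Finset V, S.Nonempty → ∃ v ∈ S, (S.filter (fun u => G.Adj v u)).card ≤ d ∧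
      ((G.edgeFinset.filter (fun e => ∀ x ∈ e, x ∈ S ∧ G.Adj v x)).card : ℝ)
        ≤ (d : ℝ) ^ 2 / f) →
    ∃ w : Finset V → ℝ, (∀ I, 0 ≤ w I) ∧
      (∀ I, w I ≠ 0 → G.IsIndepSet (I : Set V)) ∧
      (∀ v : V, 1 ≤ ∑ I ∈ Finset.univ.filter (fun I : Finset V => v ∈ I), w I) ∧
      ∑ I, w I ≤ (6 + ε) * d / Real.log f := by
  set η : ℝ := min (1 / 16) (ε / 60) with hηdef
  have hη : 0 < η := lt_min (by norm_num) (by linarith)
  have hη1 : η ≤ 1 / 16 := min_le_left _ _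
  have hη2 : η ≤ ε / 60 := min_le_right _ _
  obtain ⟨D₀, hD₀⟩ := Pool.Agent.Helper3.TH.triangle_free η hη
  -- the size of `m`
  obtain ⟨M, hM⟩ : ∃ M : ℝ, M = max (max (D₀ : ℝ) 3) (1 / η ^ 3) := ⟨_, rfl⟩
  have hM1 : (D₀ : ℝ) ≤ M := by rw [hM]; exact (le_max_left _ _).trans (le_max_left _ _)
  have hM2 : 3 ≤ M := by rw [hM]; exact (le_max_right _ _).trans (le_max_left _ _)
  have hM3 : 1 / η ^ 3 ≤ M := by rw [hM]; exact le_max_right _ _
  refine ⟨max (max 2 (M ^ 2 / η)) (Real.exp (-Real.log η / η)),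
    lt_of_lt_of_le one_lt_two ((le_max_left _ _).trans (le_max_left _ _)), ?_⟩
  intro d f hd hf hfd V _ G hG
  have hf2 : 2 ≤ f := ((le_max_left _ _).trans (le_max_left _ _)).trans hf
  have hfM : M ^ 2 / η ≤ f := ((le_max_right _ _).trans (le_max_left _ _)).trans hf
  have hfe : Real.exp (-Real.log η / η) ≤ f := (le_max_right _ _).trans hf
  have hf0 : 0 < f := by linarith
  have hd0 : (1 : ℝ) ≤ d := by exact_mod_cast hd
  have hdpos : (0 : ℝ) < d := by linarith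
  set m : ℝ := Real.sqrt (η * f) with hmdef
  have hηf : 0 < η * f := mul_pos hη hf0
  have hm2 : m ^ 2 = η * f := Real.sq_sqrt hηf.le
  have hmM : M ≤ m := by
    refine Real.le_sqrt_of_sq_le ?_
    rw [div_le_iff₀ hη] at hfM
    linarith
  have hm0 : 0 < m := by linarith
  have hmd : m ≤ d := by
    refine le_of_sq_le_sq ?_ hdpos.le
    rw [hm2]
    nlinarith
  have hlogf : 0 < Real.log f := Real.log_pos (by linarith)
  have hlogm : (1 - η) * Real.log f ≤ 2 * Real.log m := by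
    have h1 : 2 * Real.log m = Real.log η + Real.log f := by
      rw [← Real.log_mul hη.ne' hf0.ne', ← hm2, Real.log_pow]
      norm_num
    have h2 : -Real.log η / η ≤ Real.log f := by
      rw [Real.le_log_iff_exp_le hf0]
      exact hfe
    rw [div_le_iff₀ hη] at h2
    linarith
  have hlogm0 : 0 < Real.log m := Real.log_pos (by linarith)
  set D : ℕ := ⌈(1 + η) * m⌉₊ with hD
  have hDm : (1 + η) * m ≤ D := Nat.le_ceil _
  have hDm2 : (D : ℝ) ≤ (1 + η) * m + 1 := (Nat.ceil_lt_add_one (by positivity)).le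
  have hη3 : 1 ≤ η ^ 3 * m := by
    have := hM3.trans hmM
    rwa [div_le_iff₀ (by positivity), mul_comm] at this
  have hηm : 1 ≤ η * m := by
    have : η ^ 3 * m ≤ η * m := by
      refine mul_le_mul_of_nonneg_right ?_ hm0.le
      nlinarith [sq_nonneg η, mul_pos hη hη]
    linarith
  have hDm3 : (D : ℝ) ≤ (1 + 2 * η) * m := by nlinarith
  have hDm4 : m ≤ D := le_trans (by nlinarith) hDm
  have hDD : D₀ ≤ D := by
    have : (D₀ : ℝ) ≤ D := hM1.trans (hmM.trans hDm4)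
    exact_mod_cast this
  have hlogD : Real.log m ≤ Real.log D := Real.log_le_log hm0 hDm4
  set p : ℝ := m / d with hp
  have hpd : p * d = m := div_mul_cancel₀ _ hdpos.ne'
  have hp0 : 0 < p := div_pos hm0 hdpos
  have hp1 : p ≤ 1 := (div_le_one hdpos).2 hmd
  obtain ⟨w, h1, h2, h3, h4⟩ := Pool.Agent.Helper18.FT.graph_part G d f hG D ((3 + η) * D / Real.log D) p (η * m)
    hp0.le hp1 (by positivity) (by rw [hpd]; linarith) (p * (1 - 2 * η))
    (mul_pos hp0 (by linarith)) (by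
      have e1 : (d : ℝ) * p ^ 2 / (η * m) ^ 2 = p * (1 / (η ^ 2 * m)) := by
        rw [sq p, ← mul_assoc, mul_comm (d : ℝ) p, hpd]
        field_simp
      have e2 : (d : ℝ) ^ 2 / f * p ^ 3 = p * η := by
        have e3 : (d : ℝ) ^ 2 / f * p ^ 3 = p * ((p * d) ^ 2 / f) := by ring
        rw [e3, hpd, hm2, mul_div_assoc, div_self hf0.ne', mul_one]
      rw [e1, e2]
      have e4 : 1 / (η ^ 2 * m) ≤ η := by
        rw [div_le_iff₀ (by positivity)]
        linarith [hη3, (by ring : η * (η ^ 2 * m) = η ^ 3 * m)]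
      have := mul_le_mul_of_nonneg_left e4 hp0.le
      linarith) (fun H hH hdeg => by
        obtain ⟨w, h1, h2, h3, h4⟩ := hD₀ D hDD V H hH (fun S hS => by
          obtain ⟨v, hv, hc⟩ := hdeg S hS
          exact ⟨v, hv, hc⟩)
        exact ⟨w, h1, h2, h3, h4⟩)
  refine ⟨w, h1, h2, h3, h4.trans ?_⟩
  have hlogD0 : 0 < Real.log D := hlogm0.trans_le hlogD
  rw [div_div, div_le_div_iff₀ (mul_pos hlogD0 (mul_pos hp0 (by linarith))) hlogf]
  have e5 : (6 + ε) * d * (Real.log D * (p * (1 - 2 * η))) =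
      (6 + ε) * (1 - 2 * η) * m * Real.log D := by
    rw [← hpd]
    ring
  rw [e5]
  have h5 : (3 + η) * (1 + 2 * η) ≤ (6 + ε) * (1 - 2 * η) * ((1 - η) / 2) := by
    nlinarith [mul_pos hη hη, mul_pos hη hε]
  calc (3 + η) * D * Real.log f ≤ (3 + η) * ((1 + 2 * η) * m) * Real.log f := by
        refine mul_le_mul_of_nonneg_right (mul_le_mul_of_nonneg_left hDm3 (by linarith)) hlogf.le
    _ = (3 + η) * (1 + 2 * η) * (m * Real.log f) := by ring
    _ ≤ (6 + ε) * (1 - 2 * η) * ((1 - η) / 2) * (m * Real.log f) :=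
        mul_le_mul_of_nonneg_right h5 (by positivity)
    _ = (6 + ε) * (1 - 2 * η) * m * ((1 - η) * Real.log f / 2) := by ring
    _ ≤ (6 + ε) * (1 - 2 * η) * m * Real.log D := by
        refine mul_le_mul_of_nonneg_left (by linarith) ?_
        exact mul_nonneg (mul_nonneg (by linarith) (by linarith)) hm0.le

/-- Degenerate graphs with few triangles. -/
theorem few_triangles (ε : ℝ) (hε : 0 < ε) : ∃ K : ℝ, 0 < K ∧ ∀ (d : ℕ) (f : ℝ), 1 ≤ d → 1 < f →
    f ≤ (d : ℝ) ^ 2 + 1 → ∀ (V : Type) [Fintype V] (G : SimpleGraph V),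
    (∀ S : Finset V, S.Nonempty → ∃ v ∈ S, (S.filter (fun u => G.Adj v u)).card ≤ d ∧
      ((G.edgeFinset.filter (fun e => ∀ x ∈ e, x ∈ S ∧ G.Adj v x)).card : ℝ)
        ≤ (d : ℝ) ^ 2 / f) →
    ∃ w : Finset V → ℝ, (∀ I, 0 ≤ w I) ∧
      (∀ I, w I ≠ 0 → G.IsIndepSet (I : Set V)) ∧
      (∀ v : V, 1 ≤ ∑ I ∈ Finset.univ.filter (fun I : Finset V => v ∈ I), w I) ∧
      ∑ I, w I ≤ (6 + ε + K / Real.log f) * d / Real.log f := by
  obtain ⟨f₀, hf₀, hl⟩ := large ε hε
  obtain ⟨K, hK, hs⟩ := Pool.Agent.Helper60.HC.few_triangles ε hε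
  have hlog0 : 0 < Real.log f₀ := Real.log_pos hf₀
  refine ⟨K + 2 * Real.log f₀, by positivity, ?_⟩
  intro d f hd hf hfd V _ G hG
  have hlogf : 0 < Real.log f := Real.log_pos hf
  have hd0 : (0 : ℝ) ≤ d := Nat.cast_nonneg d
  rcases lt_or_ge f f₀ with h | h
  · obtain ⟨w, h1, h2, h3, h4⟩ := hs d f hd hf hfd V G hG
    refine ⟨w, h1, h2, h3, h4.trans ?_⟩
    refine div_le_div_of_nonneg_right (mul_le_mul_of_nonneg_right ?_ hd0) hlogf.le
    have h5 : Real.log f ≤ Real.log f₀ := Real.log_le_log (by linarith) h.le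
    have h6 : 2 ≤ (2 * Real.log f₀) / Real.log f := by
      rw [le_div_iff₀ hlogf]
      linarith
    rw [add_div]
    linarith
  · obtain ⟨w, h1, h2, h3, h4⟩ := hl d f hd h hfd V G hG
    refine ⟨w, h1, h2, h3, h4.trans ?_⟩
    refine div_le_div_of_nonneg_right (mul_le_mul_of_nonneg_right ?_ hd0) hlogf.le
    have : 0 ≤ (K + 2 * Real.log f₀) / Real.log f := by positivity
    linarith

end Pool.Agent.Helper3.TH
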