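import Pool.Agent.Helper3.TH.Az

/-!
# Project TH (MP_766b49_co): the constant 3, the probability of a vertex
-/

set_option autoImplicit false

namespace Pool.Agent.Helper3.TH

open Finset Pool.Agent.Helper25.GT

/-- hypotheses on the parameters -/
structure HypT (N : ℕ → Finset ℕ) (p κ K lo : ℝ) (d : ℕ) : Prop where
  p0 : 0 < p
  k0 : 0 < κ
  k1 : κ < 1
  hK : (1 - κ)⁻¹ = 1 + K
  Klo : K ≤ lo
  d1 : 1 ≤ d
  lt : ∀ i, ∀ j ∈ N i, j < i
  card : ∀ i, (N i).card ≤ d
  tri : ∀ i, ∀ j ∈ N i, ∀ k ∈ N i, k ∉ N j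

section main

variable {N : ℕ → Finset ℕ} {p κ K lo : ℝ} {d : ℕ}

theorem xt_range (h : HypT N p κ K lo d) (t : ℕ) : ∀ J : Finset ℕ,
    0 ≤ xt N d p κ lo t J ∧ xt N d p κ lo t J ≤ κ := by
  induction t using Nat.strong_induction_on with
  | _ t ih =>
    intro J
    rw [xt_eq]
    unfold vl
    split_ifs with hc
    · refine ⟨?_, hc.2⟩
      have h1 := (H_bounds (N := N) (y := fun v => xt N d p κ lo v J) (J := J) (u := t) (h.card t)
        h.d1 h.k1 h.k0.le h.hK h.Klo t (fun v hv => (ih v hv J).2)).1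
      have h2 : 0 ≤ mm (fun v => xt N d p κ lo v J) (N t) J t :=
        mm_nonneg _ _ _ _ fun v hv => ((ih v hv J).2).trans h.k1.le
      exact mul_nonneg (mul_nonneg h.p0.le h2) h1
    · exact ⟨le_rfl, h.k0.le⟩

theorem good (h : HypT N p κ K lo d) : Good N κ (xt N d p κ lo) where
  k0 := h.k0.le
  k1 := h.k1
  lt := h.lt
  nonneg := fun t J => (xt_range h t J).1
  le := fun t J => (xt_range h t J).2
  zero := by
    intro t J j hj hJ
    have hM : mm (fun v => xt N d p κ lo v J) (N t) J t = 0 := by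
      unfold mm
      exact prod_eq_zero (mem_range.2 (h.lt t j hj)) (by simp [hj, hJ])
    rw [xt_eq, vl, hM]
    simp
  loc := xt_loc N d p κ lo

/-- a hedge of the process -/
noncomputable def HG (b : ℝ → ℝ → ℝ) (h0 : ℝ) (N : ℕ → Finset ℕ) (d : ℕ)
    (x : ℕ → Finset ℕ → ℝ) (u s : ℕ) (J : Finset ℕ) : ℝ := hg b h0 N d (fun v => x v J) J u s

/-- the running maximum of the process -/
noncomputable def MX (N : ℕ → Finset ℕ) (d : ℕ) (x : ℕ → Finset ℕ → ℝ) (u s : ℕ)
    (J : Finset ℕ) : ℝ := mx N d (fun v => x v J) J u s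

/-- the mean of the martingales -/
noncomputable def AA (N : ℕ → Finset ℕ) (d : ℕ) (x : ℕ → Finset ℕ → ℝ) (u s : ℕ)
    (J : Finset ℕ) : ℝ := aa N d (fun v => x v J) J u s

theorem AA_eq (x : ℕ → Finset ℕ → ℝ) (u s : ℕ) (J : Finset ℕ) :
    AA N d x u s J = (SS N x u s J + ((d : ℝ) - (N u).card)) / d := rfl

theorem xt_eq' (t : ℕ) (J : Finset ℕ) : xt N d p κ lo t J =
    if lo ≤ HG (bH lo) 1 N d (xt N d p κ lo) t t J ∧
        p * MM (xt N d p κ lo) (N t) t J * HG (bH lo) 1 N d (xt N d p κ lo) t t J ≤ κ then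
      p * MM (xt N d p κ lo) (N t) t J * HG (bH lo) 1 N d (xt N d p κ lo) t t J else 0 :=
  xt_eq N d p κ lo t J

variable {x : ℕ → Finset ℕ → ℝ} (b : ℝ → ℝ → ℝ) (h0 : ℝ)

theorem HG_out (u t : ℕ) (J : Finset ℕ) : HG b h0 N d x u (t + 1) J =
    HG b h0 N d x u t J - b (MX N d x u t J) (HG b h0 N d x u t J) *
      (AA N d x u (t + 1) J - AA N d x u t J) := rfl

theorem HG_in (H : Good N κ x) (u t : ℕ) (J : Finset ℕ) :
    HG b h0 N d x u (t + 1) (insert t J) =
    HG b h0 N d x u t J - b (MX N d x u t J) (HG b h0 N d x u t J) *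
      (AA N d x u (t + 1) (insert t J) - AA N d x u t J) := by
  have e : ∀ v < t, x v (insert t J) = x v J := fun v hv =>
    H.loc v _ _ fun w hw => mem_insert_lt t J w (hw.trans hv)
  have h1 : HG b h0 N d x u t (insert t J) = HG b h0 N d x u t J :=
    hg_congr N d b h0 _ _ _ _ u t e (mem_insert_lt t J)
  have h2 : AA N d x u t (insert t J) = AA N d x u t J :=
    aa_congr N d _ _ _ _ u t e (mem_insert_lt t J)
  have h3 : MX N d x u t (insert t J) = MX N d x u t J :=
    mx_congr N d _ _ _ _ u t e (mem_insert_lt t J)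
  rw [HG_out b h0 u t (insert t J), h1, h2, h3]

/-- the mean of a hedge does not change -/
theorem HG_mean (H : Good N κ x) (u t : ℕ) (J : Finset ℕ) (hJ : t ∉ J) :
    x t J * HG b h0 N d x u (t + 1) (insert t J) + (1 - x t J) * HG b h0 N d x u (t + 1) J =
      HG b h0 N d x u t J := by
  rw [HG_in b h0 H, HG_out]
  have hS : x t J * SS N x u (t + 1) (insert t J) + (1 - x t J) * SS N x u (t + 1) J =
      SS N x u t J := by
    rw [SS_in H, SS_out H u t J hJ, SS_def, mul_sum, mul_sum, ← sum_add_distrib]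
    refine sum_congr rfl fun v _ => ?_
    have hne := (one_sub_pos H t J).ne'
    split_ifs
    · field_simp
      ring
    · ring
  have hA : x t J * AA N d x u (t + 1) (insert t J) + (1 - x t J) * AA N d x u (t + 1) J =
      AA N d x u t J := by
    rw [AA_eq, AA_eq, AA_eq, ← hS]
    ring
  linear_combination (-(b (MX N d x u t J) (HG b h0 N d x u t J))) * hA

/-- a hedge decreases if `t` is not chosen -/
theorem HG_out_le (H : Good N κ x) (hb : ∀ m h, 1 ≤ m → 0 ≤ b m h) (u t : ℕ) (J : Finset ℕ)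
    (hJ : t ∉ J) : HG b h0 N d x u (t + 1) J ≤ HG b h0 N d x u t J := by
  rw [HG_out]
  have hS : SS N x u t J ≤ SS N x u (t + 1) J := by
    rw [SS_out H u t J hJ, SS_def]
    refine sum_le_sum fun v _ => ?_
    have h0 := MM_nonneg H (N v) (min t v) J
    have h1 : 1 ≤ (if t ∈ N v then (1 - x t J)⁻¹ else 1) := by
      split_ifs
      · exact (one_le_inv₀ (one_sub_pos H t J)).2 (by linarith [H.nonneg t J])
      · exact le_rfl
    nlinarith
  have hA : AA N d x u t J ≤ AA N d x u (t + 1) J := by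
    rw [AA_eq, AA_eq]
    exact div_le_div_of_nonneg_right (by linarith) (Nat.cast_nonneg _)
  have := mul_nonneg (hb (MX N d x u t J) (HG b h0 N d x u t J) (mx_one t)) (sub_nonneg.2 hA)
  linarith

/-- a hedge of `u` does not change at an earlier neighbour of `u` -/
theorem HG_out_eq (H : Good N κ x) (htri : ∀ i, ∀ j ∈ N i, ∀ k ∈ N i, k ∉ N j) (u t : ℕ)
    (J : Finset ℕ) (hJ : t ∉ J) (ht : t ∈ N u) :
    HG b h0 N d x u (t + 1) J = HG b h0 N d x u t J := by
  rw [HG_out]
  have hS : SS N x u (t + 1) J = SS N x u t J := by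
    rw [SS_out H u t J hJ, SS_def]
    refine sum_congr rfl fun v hv => ?_
    rw [if_neg (htri u v hv t ht), mul_one]
  rw [AA_eq, AA_eq, hS]
  ring

/-- the step -/
theorem step (H : Good N κ x) (htri : ∀ i, ∀ j ∈ N i, ∀ k ∈ N i, k ∉ N j) (A : Finset ℕ) (u t : ℕ)
    (hA : t ∈ A → t ∉ N u) (J : Finset ℕ) (hJ : t ∉ J) :
    x t J * (MM x A (t + 1) (insert t J) *
        (MM x (N u) (t + 1) (insert t J) * HG b h0 N d x u (t + 1) (insert t J))) +
      (1 - x t J) * (MM x A (t + 1) J * (MM x (N u) (t + 1) J * HG b h0 N d x u (t + 1) J)) =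
    MM x A t J * (MM x (N u) t J *
      (if t ∈ A then HG b h0 N d x u (t + 1) J else HG b h0 N d x u t J)) := by
  have hne := (one_sub_pos H t J).ne'
  rw [MM_in H, MM_in H, MM_out A t J hJ, MM_out (N u) t J hJ]
  by_cases h1 : t ∈ A
  · have h2 := hA h1
    rw [if_pos h1, if_pos h1, if_pos h1, if_neg h2, if_neg h2]
    field_simp
    ring
  · rw [if_neg h1, if_neg h1, if_neg h1]
    by_cases h2 : t ∈ N u
    · rw [if_pos h2, if_pos h2, HG_out_eq b h0 H htri u t J hJ h2]
      field_simp
      ring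
    · rw [if_neg h2, if_neg h2]
      have h3 := HG_mean (N := N) (d := d) b h0 H u t J hJ
      linear_combination (MM x A t J * MM x (N u) t J) * h3

/-- mean of `M_u h_u` -/
theorem mean_eq (H : Good N κ x) (htri : ∀ i, ∀ j ∈ N i, ∀ k ∈ N i, k ∉ N j) (u : ℕ) :
    EE x u (fun J => MM x (N u) u J * HG b h0 N d x u u J) = h0 := by
  have h := EE_step_eq H (fun t J => MM x (N u) t J * HG b h0 N d x u t J) u (by
    intro t _ J hJ
    have h1 := step (N := N) (d := d) b h0 H htri ∅ u t (fun h => absurd h (notMem_empty _)) J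
      (not_mem_of_subset_range hJ.1)
    have e : ∀ (s : ℕ) (K : Finset ℕ), MM x ∅ s K = 1 := by
      intro s K
      unfold MM mm
      simp
    rw [e, e, e, if_neg (notMem_empty _), one_mul, one_mul, one_mul] at h1
    exact h1)
  rw [h]
  change MM x (N u) 0 ∅ * HG b h0 N d x u 0 ∅ = h0
  rw [MM_zero]
  change 1 * h0 = h0
  ring

/-- mean of `M_w M_u h_u` for an earlier neighbour `u` of `w` -/
theorem mean_le (H : Good N κ x) (hb : ∀ m h, 1 ≤ m → 0 ≤ b m h)
    (htri : ∀ i, ∀ j ∈ N i, ∀ k ∈ N i, k ∉ N j) (w u : ℕ) (hu : u ∈ N w) :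
    EE x u (fun J => MM x (N w) u J * (MM x (N u) u J * HG b h0 N d x u u J)) ≤ h0 := by
  have h := EE_step_le H (fun t J => MM x (N w) t J * (MM x (N u) t J * HG b h0 N d x u t J)) u (by
    intro t _ J hJ
    have h1 := step (N := N) (d := d) b h0 H htri (N w) u t (fun h => htri w u hu t h) J
      (not_mem_of_subset_range hJ.1)
    rw [h1]
    refine mul_le_mul_of_nonneg_left (mul_le_mul_of_nonneg_left ?_ (MM_nonneg H _ _ _))
      (MM_nonneg H _ _ _)
    split_ifs
    · exact HG_out_le b h0 H hb u t J (not_mem_of_subset_range hJ.1)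
    · exact le_rfl)
  refine h.trans (le_of_eq ?_)
  rw [MM_zero, MM_zero]
  change 1 * (1 * h0) = h0
  ring

/-- mean of `M_w M_u P_u` at the time `w` -/
theorem cross (H : Good N κ x) (hb : ∀ m h, 1 ≤ m → 0 ≤ b m h)
    (htri : ∀ i, ∀ j ∈ N i, ∀ k ∈ N i, k ∉ N j) (w u : ℕ) (hu : u ∈ N w) :
    EE x w (fun J => MM x (N w) w J * (MM x (N u) u J * HG b h0 N d x u u J)) ≤ h0 := by
  have huw := H.lt w u hu
  rw [EE_mart H (N w) u (fun J => MM x (N u) u J * HG b h0 N d x u u J) ?_ w huw.le]
  · exact mean_le b h0 H hb htri w u hu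
  · intro t ht J _
    have hloc : ∀ v < u, (v ∈ insert t J ↔ v ∈ J) := fun w' hw' =>
      mem_insert_lt t J w' (lt_of_lt_of_le hw' ht)
    rw [MM_local H (N u) u _ _ hloc]
    congr 1
    exact hg_congr N d b h0 _ _ _ _ u u
      (fun v hv => H.loc v _ _ fun w' hw' => hloc w' (hw'.trans hv)) hloc

/-- mean of `M_w M_u` at the time `w` -/
theorem cross1 (d : ℕ) (H : Good N κ x) (htri : ∀ i, ∀ j ∈ N i, ∀ k ∈ N i, k ∉ N j) (w u : ℕ)
    (hu : u ∈ N w) : EE x w (fun J => MM x (N w) w J * MM x (N u) u J) ≤ 1 := by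
  have h := cross (N := N) (d := d) (fun _ _ => 0) 1 H (fun _ _ _ => le_rfl) htri w u hu
  have e : ∀ s J, HG (fun _ _ => (0 : ℝ)) 1 N d x u s J = 1 := by
    intro s J
    induction s with
    | zero => rfl
    | succ s ih =>
      rw [HG_out, ih]
      ring
  simpa only [e, mul_one] using h

end main

section bound

variable {N : ℕ → Finset ℕ} {p κ K lo : ℝ} {d : ℕ}

/-- the lower bound of the probability of `w` -/
theorem prob_bound (h : HypT N p κ K lo d) (w : ℕ) (D θ : ℝ)
    (hD : D = (1 - κ) * Real.log (κ / (2 * p))) (hD0 : 0 < D)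
    (hθ : 4 * (p * d) ^ 2 ≤ θ * D ^ 2) (hθ0 : 0 ≤ θ) :
    p * (1 - lo - θ * (1 / 3 + K)) ≤ EE (xt N d p κ lo) w (fun J => xt N d p κ lo w J) := by
  have H := good h
  set x := xt N d p κ lo with hx
  have hκ' : 0 < 1 - κ := by linarith [h.k1]
  have hp := h.p0
  have hdpos : (0 : ℝ) < d := by exact_mod_cast h.d1
  have hK0 : 0 ≤ K := by
    have h1 : 1 ≤ (1 - κ)⁻¹ := (one_le_inv₀ hκ').2 (by linarith [h.k0])
    linarith [h.hK]
  have hlo0 : 0 ≤ lo := hK0.trans h.Klo
  have hHP : ∀ u s J, 0 ≤ HG bP (1 / 3) N d x u s J + K ∧ (lo ≤ HG (bH lo) 1 N d x u s J →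
      HG (bH lo) 1 N d x u s J ≤ 2 ∧
      HG (bH lo) 1 N d x u s J * AA N d x u s J ≤ 1 ∧
      HG (bH lo) 1 N d x u s J ^ 2 ≤ 4 * (HG bP (1 / 3) N d x u s J + K)) := fun u s J =>
    HP (h.card u) h.d1 h.k1 h.k0.le h.hK h.Klo s fun v _ => (xt_range h v J).2
  have hH0 : ∀ u s J, 0 ≤ HG (bH lo) 1 N d x u s J := fun u s J =>
    (H_bounds (h.card u) h.d1 h.k1 h.k0.le h.hK h.Klo s fun v _ => (xt_range h v J).2).1
  have hpt : ∀ J, Ind N w J → p * (MM x (N w) w J * HG (bH lo) 1 N d x w w J) +
      ((-(lo * p)) * MM x (N w) w J + (-(θ * p / d)) * ∑ v ∈ N w,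
        (MM x (N w) w J * (MM x (N v) v J * HG bP (1 / 3) N d x v v J) +
          K * (MM x (N w) w J * MM x (N v) v J))) ≤ x w J := by
    intro J _
    have hM0 := MM_nonneg H (N w) w J
    have hx0 := H.nonneg w J
    have eQ : ∑ v ∈ N w, (MM x (N w) w J * (MM x (N v) v J * HG bP (1 / 3) N d x v v J) +
          K * (MM x (N w) w J * MM x (N v) v J)) =
        MM x (N w) w J * ∑ v ∈ N w, MM x (N v) v J * (HG bP (1 / 3) N d x v v J + K) := by
      rw [mul_sum]
      exact sum_congr rfl fun v _ => by ring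
    rw [eQ]
    set Q : ℝ := ∑ v ∈ N w, MM x (N v) v J * (HG bP (1 / 3) N d x v v J + K) with hQ
    have hQ0 : 0 ≤ Q := sum_nonneg fun v _ => mul_nonneg (MM_nonneg H _ _ _) (hHP v v J).1
    have hlast : 0 ≤ θ * p / d * (MM x (N w) w J * Q) :=
      mul_nonneg (div_nonneg (mul_nonneg hθ0 hp.le) hdpos.le) (mul_nonneg hM0 hQ0)
    by_cases hst : HG (bH lo) 1 N d x w w J < lo
    · have h1 : p * (MM x (N w) w J * HG (bH lo) 1 N d x w w J) ≤ lo * p * MM x (N w) w J := by
        have := mul_le_mul_of_nonneg_left hst.le (mul_nonneg hp.le hM0)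
        linarith
      linarith
    · push Not at hst
      have hlast2 : 0 ≤ lo * p * MM x (N w) w J := mul_nonneg (mul_nonneg hlo0 hp.le) hM0
      by_cases hk : p * MM x (N w) w J * HG (bH lo) 1 N d x w w J ≤ κ
      · have h1 : x w J = p * MM x (N w) w J * HG (bH lo) 1 N d x w w J := by
          have := xt_eq' (N := N) (p := p) (κ := κ) (lo := lo) (d := d) w J
          rw [← hx] at this
          rw [this, if_pos ⟨hst, hk⟩]
        rw [h1]
        linarith
      · push Not at hk
        obtain ⟨a1, a2, -⟩ := (hHP w w J).2 hst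
        have h1 := MM_le_exp H (N w) w (h.lt w) J
        have h2 : κ / (2 * p) < Real.exp ((∑ v ∈ N w, x v J) / (1 - κ)) := by
          refine lt_of_lt_of_le ?_ h1
          rw [div_lt_iff₀ (by positivity)]
          have h3 := mul_le_mul_of_nonneg_left a1 (mul_nonneg hp.le hM0)
          linarith
        have h3 : Real.log (κ / (2 * p)) < (∑ v ∈ N w, x v J) / (1 - κ) :=
          (Real.log_lt_iff_lt_exp (div_pos h.k0 (by positivity))).2 h2
        rw [lt_div_iff₀ hκ'] at h3
        have h4 : D ≤ ∑ v ∈ N w, x v J := by rw [hD]; linarith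
        -- Cauchy-Schwarz
        have h5 : (∑ v ∈ N w, x v J) ^ 2 ≤ (∑ v ∈ N w, MM x (N v) v J) * (p ^ 2 * (4 * Q)) := by
          have e1 : p ^ 2 * (4 * Q) = ∑ v ∈ N w, p ^ 2 * (4 * (MM x (N v) v J *
              (HG bP (1 / 3) N d x v v J + K))) := by
            rw [hQ, mul_sum, mul_sum]
          rw [e1]
          refine sum_sq_le_sum_mul_sum_of_sq_le_mul (N w) (fun v _ => MM_nonneg H _ _ _)
            (fun v _ => by
              have := mul_nonneg (MM_nonneg H (N v) v J) (hHP v v J).1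
              positivity) fun v _ => ?_
          have hMv := MM_nonneg H (N v) v J
          have := xt_eq' (N := N) (p := p) (κ := κ) (lo := lo) (d := d) v J
          rw [← hx] at this
          rw [this]
          split_ifs with hc
          · have h6 := ((hHP v v J).2 hc.1).2.2
            have h7 : p ^ 2 * MM x (N v) v J ^ 2 * HG (bH lo) 1 N d x v v J ^ 2 ≤
                p ^ 2 * MM x (N v) v J ^ 2 * (4 * (HG bP (1 / 3) N d x v v J + K)) :=
              mul_le_mul_of_nonneg_left h6 (by positivity)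
            calc (p * MM x (N v) v J * HG (bH lo) 1 N d x v v J) ^ 2
                = p ^ 2 * MM x (N v) v J ^ 2 * HG (bH lo) 1 N d x v v J ^ 2 := by ring
              _ ≤ _ := h7
              _ = _ := by ring
          · have := mul_nonneg hMv (hHP v v J).1
            have h8 : 0 ≤ MM x (N v) v J * (p ^ 2 * (4 * (MM x (N v) v J *
              (HG bP (1 / 3) N d x v v J + K)))) := by positivity
            simpa using h8
        have h6 : ∑ v ∈ N w, MM x (N v) v J ≤ d * AA N d x w w J := by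
          rw [AA_eq, mul_div_cancel₀ _ hdpos.ne', SS_def]
          have e1 : ∑ v ∈ N w, MM x (N v) (min w v) J = ∑ v ∈ N w, MM x (N v) v J :=
            sum_congr rfl fun v hv => by
              have e : min w v = v := by
                have := h.lt w v hv
                omega
              rw [e]
          have h2 : ((N w).card : ℝ) ≤ d := by exact_mod_cast h.card w
          rw [e1]
          linarith
        have hA0 : 0 ≤ AA N d x w w J := aa_nonneg (h.card w) h.k1 w fun v _ => (xt_range h v J).2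
        -- the final estimate
        have h7 : HG (bH lo) 1 N d x w w J ≤ θ / d * Q := by
          have hh0 := hH0 w w J
          set A := AA N d x w w J
          set hw := HG (bH lo) 1 N d x w w J
          have h8 : D ^ 2 ≤ (d * A) * (p ^ 2 * (4 * Q)) := by
            have h9 : D ^ 2 ≤ (∑ v ∈ N w, x v J) ^ 2 := pow_le_pow_left₀ hD0.le h4 2
            refine h9.trans (h5.trans ?_)
            exact mul_le_mul_of_nonneg_right h6 (by positivity)
          have h10 : hw * D ^ 2 ≤ d * (p ^ 2 * (4 * Q)) := by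
            have h11 := mul_le_mul_of_nonneg_left h8 hh0
            have h12 : hw * ((d * A) * (p ^ 2 * (4 * Q))) = (hw * A) * (d * (p ^ 2 * (4 * Q))) := by
              ring
            rw [h12] at h11
            refine h11.trans ?_
            have : (hw * A) * (d * (p ^ 2 * (4 * Q))) ≤ 1 * (d * (p ^ 2 * (4 * Q))) :=
              mul_le_mul_of_nonneg_right a2 (by positivity)
            linarith
          have hD2 : 0 < D ^ 2 := by positivity
          have h13 : d * (p ^ 2 * (4 * Q)) ≤ (θ / d * Q) * D ^ 2 := by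
            have h14 : 4 * (p * d) ^ 2 * (Q / d) ≤ θ * D ^ 2 * (Q / d) :=
              mul_le_mul_of_nonneg_right hθ (by positivity)
            calc d * (p ^ 2 * (4 * Q)) = 4 * (p * d) ^ 2 * (Q / d) := by
                  field_simp
              _ ≤ θ * D ^ 2 * (Q / d) := h14
              _ = _ := by ring
          exact le_of_mul_le_mul_right (h10.trans h13) hD2
        have h9 : p * (MM x (N w) w J * HG (bH lo) 1 N d x w w J) ≤
            θ * p / d * (MM x (N w) w J * Q) := by
          calc p * (MM x (N w) w J * HG (bH lo) 1 N d x w w J)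
              ≤ p * (MM x (N w) w J * (θ / d * Q)) :=
                mul_le_mul_of_nonneg_left (mul_le_mul_of_nonneg_left h7 hM0) hp.le
            _ = _ := by ring
        linarith
  have h1 := EE_mono H w _ _ hpt
  rw [EE_add, EE_const_mul, EE_add, EE_const_mul, EE_const_mul, EE_sum, EE_MM H,
    mean_eq _ _ H h.tri] at h1
  have h2 : ∑ v ∈ N w, EE x w (fun J =>
      MM x (N w) w J * (MM x (N v) v J * HG bP (1 / 3) N d x v v J) +
          K * (MM x (N w) w J * MM x (N v) v J)) ≤ d * (1 / 3 + K) := by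
    calc ∑ v ∈ N w, EE x w (fun J =>
      MM x (N w) w J * (MM x (N v) v J * HG bP (1 / 3) N d x v v J) +
          K * (MM x (N w) w J * MM x (N v) v J)) ≤ ∑ v ∈ N w, (1 / 3 + K) := by
          refine sum_le_sum fun v hv => ?_
          rw [EE_add, EE_const_mul]
          have c1 := cross (N := N) (d := d) bP (1 / 3) H
            (fun m _ hm => by unfold bP; positivity) h.tri w v hv
          have c2 := mul_le_mul_of_nonneg_left (cross1 d H h.tri w v hv) hK0
          linarith
      _ = (N w).card * (1 / 3 + K) := by rw [sum_const, nsmul_eq_mul]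
      _ ≤ d * (1 / 3 + K) := mul_le_mul_of_nonneg_right (by exact_mod_cast h.card w)
          (by linarith)
  have h3 := mul_le_mul_of_nonneg_left h2 (div_nonneg (mul_nonneg hθ0 hp.le) hdpos.le)
  have h4 : p * (1 - lo - θ * (1 / 3 + K)) = p - lo * p - θ * p / d * (d * (1 / 3 + K)) := by
    field_simp
  rw [h4]
  linarith

end bound

end Pool.Agent.Helper3.TH
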